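import Pool.Agent.Helper58.SF.StG

/-!
Project SF (MP_a45945_gt, owner helper58), module FAD: discs, and homeomorphisms between them close to
the identity.
-/

set_option autoImplicit false

namespace Pool.Agent.Helper72.SF

open Set Topology Pool.Agent.Helper13.TR Pool.Agent.Helper58.SF
open Pool.Agent.Helper13.TW (IsArc Spl IsSCC dch Chn Splt GT CSy MP Val LR MCell StARB StARX StSCL StUAR StINF StLIN StAC1 StSDM StLRC StBF StMD1 StMD2 StMD3)

/-- the inverse of a continuous injective map of a compact set -/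
private lemma invHomeo {X Y : Type} [TopologicalSpace X] [TopologicalSpace Y] [T2Space Y]
    [Nonempty X] {D : Set X} {B : Set Y} {φ : X → Y} (hD : IsCompact D) (hc : ContinuousOn φ D)
    (hi : InjOn φ D) (hB : φ '' D = B) : ∃ ψ : Y → X, ContinuousOn ψ B ∧ InjOn ψ B ∧ ψ '' B = D ∧
      (∀ x ∈ D, ψ (φ x) = x) ∧ ∀ y ∈ B, φ (ψ y) = y := by
  subst hB
  have hcs : CompactSpace D := isCompact_iff_compactSpace.mp hD
  let e : D ≃ (φ '' D) := Equiv.Set.imageOfInjOn φ D hi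
  have he : Continuous e := by
    have h1 : Continuous (D.domRestrict φ) := continuousOn_iff_continuous_domRestrict.mp hc
    exact h1.subtype_mk _
  let H : D ≃ₜ (φ '' D) := Continuous.homeoOfEquivCompactToT2 (f := e) he
  have hH : ∀ x : D, ((H x : Y)) = φ x := fun x => rfl
  have m1 : ∀ y ∈ φ '' D, Function.invFunOn φ D y ∈ D := fun y hy => Function.invFunOn_mem hy
  have m2 : ∀ y ∈ φ '' D, φ (Function.invFunOn φ D y) = y := fun y hy => Function.invFunOn_eq hy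
  have m3 : ∀ x ∈ D, Function.invFunOn φ D (φ x) = x := fun x hx =>
    hi (m1 _ (mem_image_of_mem φ hx)) hx (m2 _ (mem_image_of_mem φ hx))
  refine ⟨Function.invFunOn φ D, ?_, ?_, ?_, m3, m2⟩
  · rw [continuousOn_iff_continuous_domRestrict]
    have h2 : (φ '' D).domRestrict (Function.invFunOn φ D) = fun y => ((H.symm y : D) : X) := by
      funext y
      have h3 : φ ((H.symm y : D) : X) = y := by
        rw [← hH, H.apply_symm_apply]
      exact hi (m1 y y.2) (H.symm y).2 (by rw [h3]; exact m2 y y.2)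
    rw [h2]
    exact continuous_subtype_val.comp H.symm.continuous
  · intro y hy y' hy' h
    rw [← m2 y hy, ← m2 y' hy', h]
  · ext x
    constructor
    · rintro ⟨y, hy, rfl⟩
      exact m1 y hy
    · intro hx
      exact ⟨φ x, mem_image_of_mem φ hx, m3 x hx⟩

private lemma extVal {P Y : Type} [Nonempty Y] (S : Set P) (F : ↥S → Y) :
    ∃ G : P → Y, ∀ x : ↥S, G x = F x := by
  classical
  exact ⟨fun y => if h : y ∈ S then F ⟨y, h⟩ else Classical.arbitrary Y, fun x => by simp⟩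

private lemma mcellBall : MCell (Metric.closedBall 0 1) (Metric.sphere 0 1) :=
  ⟨Homeomorph.refl ℂ, by simp, by simp⟩

section

variable {P : Type} [MetricSpace P] {r : P → ℝ} {R : ℝ → P → P} {dg : P → Ch P 3 → ℤ} {x₀ : P}
  {a a' b : ℝ} {V0 V' C2 Jp : Set P} {zJ : Ch P 1} {chi : P → ℝ} {O1 : Set P}

/-- a parametrization of the common boundary curve by the circle -/
private lemma base (hFAA : StFAA) (hCSS : StCSS) (hBF : StBF) (hc' : CSy MCell)
    (hD : Dat P r R dg x₀ a a' b V0 V' C2 Jp zJ chi O1) :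
    ∃ g : P → ℂ, ContinuousOn g Jp ∧ InjOn g Jp ∧ g '' Jp = Metric.sphere 0 1 := by
  obtain ⟨hL, hPC, hWN, hcel, hJS, hDk⟩ := hFAA P r R dg x₀ a a' b V0 V' C2 Jp zJ chi O1 hD 0
    ⟨le_refl 0, zero_le_one⟩ _ rfl
  have hc := hCSS _ _ _ hWN
  obtain ⟨f, hf⟩ := hBF _ _ _ _ hc hc' _ _ _ _ ⟨hcel, rfl⟩ mcellBall
  classical
  obtain ⟨F, hF⟩ := extVal (Y := ℂ) _ (fun x : ↥(cl (wS r R dg (Sg r R chi a a' b 0))
    (Subtype.val ⁻¹' Jp)) => (f x : ℂ))
  obtain ⟨G, hG⟩ := extVal (Y := ℂ) _ F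
  have hJc : (Subtype.val ⁻¹' Jp : Set ↥(Sg r R chi a a' b 0)) ⊆
      cl (wS r R dg (Sg r R chi a a' b 0)) (Subtype.val ⁻¹' Jp) := subset_union_left
  have key : ∀ y (hy : y ∈ Jp), G y = f ⟨⟨y, hJS hy⟩, hJc hy⟩ := by
    intro y hy
    have h1 := hG ⟨y, hJS hy⟩
    have h2 := hF ⟨⟨y, hJS hy⟩, hJc hy⟩
    exact h1.trans h2
  refine ⟨G, ?_, ?_, ?_⟩
  · have hFc : ContinuousOn F (cl (wS r R dg (Sg r R chi a a' b 0)) (Subtype.val ⁻¹' Jp)) := by
      rw [continuousOn_iff_continuous_domRestrict]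
      have : (cl (wS r R dg (Sg r R chi a a' b 0)) (Subtype.val ⁻¹' Jp)).domRestrict F
          = fun x => ((f x : ℂ)) := by
        funext x
        exact hF x
      rw [this]
      exact continuous_subtype_val.comp f.continuous
    have h1 : Jp = Subtype.val '' (Subtype.val ⁻¹' Jp : Set ↥(Sg r R chi a a' b 0)) := by
      rw [Subtype.image_preimage_coe, inter_eq_right.mpr hJS]
    rw [h1, IsInducing.subtypeVal.continuousOn_image_iff]
    have h2 : G ∘ (Subtype.val : ↥(Sg r R chi a a' b 0) → P) = F := funext hG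
    rw [h2]
    exact hFc.mono hJc
  · intro y hy y' hy' h
    rw [key y hy, key y' hy'] at h
    have h1 := f.injective (Subtype.ext h)
    exact congrArg (fun z => ((z : ↥(Sg r R chi a a' b 0)) : P)) (congrArg Subtype.val h1)
  · ext z
    constructor
    · rintro ⟨y, hy, rfl⟩
      rw [key y hy]
      exact (hf _).mp hy
    · intro hz
      have hzb : z ∈ Metric.closedBall (0 : ℂ) 1 := Metric.sphere_subset_closedBall hz
      set x := f.symm ⟨z, hzb⟩ with hx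
      have h1 : f x = ⟨z, hzb⟩ := f.apply_symm_apply _
      have h2 : ((x : ↥(Sg r R chi a a' b 0)) : P) ∈ Jp := by
        have h3 := (hf x).mpr (by rw [h1]; exact hz)
        exact h3
      refine ⟨_, h2, ?_⟩
      rw [key _ h2]
      have h4 : (⟨⟨((x : ↥(Sg r R chi a a' b 0)) : P), hJS h2⟩, hJc h2⟩ :
          ↥(cl (wS r R dg (Sg r R chi a a' b 0)) (Subtype.val ⁻¹' Jp))) = x := by
        apply Subtype.ext
        apply Subtype.ext
        rfl
      rw [h4, h1]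

/-- extension of the parametrization of the boundary curve -/
private lemma chart (hFAA : StFAA) (hCSS : StCSS) (hEXT : StEXT)
    (hD : Dat P r R dg x₀ a a' b V0 V' C2 Jp zJ chi O1) (u : ℝ) (hu : u ∈ Icc (0 : ℝ) 1)
    (g : P → ℂ) (hgc : ContinuousOn g Jp) (hgi : InjOn g Jp) (hg : g '' Jp = Metric.sphere 0 1) :
    ∃ φ : P → ℂ, ContinuousOn φ (Dk r R dg chi a a' b zJ Jp u) ∧
      InjOn φ (Dk r R dg chi a a' b zJ Jp u) ∧
      φ '' Dk r R dg chi a a' b zJ Jp u = Metric.closedBall 0 1 ∧ ∀ y ∈ Jp, φ y = g y := by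
  obtain ⟨hL, hPC, hWN, hcel, hJS, hDk⟩ := hFAA P r R dg x₀ a a' b V0 V' C2 Jp zJ chi O1 hD u
    hu _ rfl
  have hc := hCSS _ _ _ hWN
  have h0 : Subtype.val '' (Subtype.val ⁻¹' Jp : Set ↥(Sg r R chi a a' b u)) = Jp := by
    rw [Subtype.image_preimage_coe, inter_eq_right.mpr hJS]
  obtain ⟨φ', h1, h2, h3, h4⟩ := hEXT _ _ hc _ _ ⟨hcel, rfl⟩ _ _ mcellBall
    (g ∘ (Subtype.val : ↥(Sg r R chi a a' b u) → P))
    (hgc.comp continuous_subtype_val.continuousOn (mapsTo_preimage _ _))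
    (fun x hx y hy h => Subtype.ext (hgi hx hy h))
    (by rw [image_comp, h0, hg])
  obtain ⟨φ, hφ⟩ := extVal (Y := ℂ) _ φ'
  have h5 : φ ∘ (Subtype.val : ↥(Sg r R chi a a' b u) → P) = φ' := funext hφ
  refine ⟨φ, ?_, ?_, ?_, ?_⟩
  · rw [← hDk, IsInducing.subtypeVal.continuousOn_image_iff, h5]
    exact h1
  · rw [← hDk]
    rintro _ ⟨x, hx, rfl⟩ _ ⟨y, hy, rfl⟩ h
    rw [hφ, hφ] at h
    rw [h2 hx hy h]
  · rw [← hDk, ← image_comp, h5, h3]
  · intro y hy
    have h6 := hφ ⟨y, hJS hy⟩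
    have h7 := h4 ⟨y, hJS hy⟩ hy
    exact h6.trans h7

/-- monotone maps of the disc -/
private lemma mono (hFAA : StFAA) (hNHF : StNHF) (hTWO : StTWO)
    (hD : Dat P r R dg x₀ a a' b V0 V' C2 Jp zJ chi O1) (u : ℝ) (hu : u ∈ Icc (0 : ℝ) 1)
    (f : P → ℂ) (hfc : ContinuousOn f (Dk r R dg chi a a' b zJ Jp u))
    (hf : f '' Dk r R dg chi a a' b zJ Jp u = Metric.closedBall 0 1)
    (hfib : ∀ v : ℂ, IsPreconnected (Dk r R dg chi a a' b zJ Jp u ∩ f ⁻¹' {v}))
    (hfi : InjOn f Jp) (hfJ : f '' Jp = Metric.sphere 0 1) (ε : ℝ) (hε : 0 < ε) :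
    ∃ h : P → ℂ, ContinuousOn h (Dk r R dg chi a a' b zJ Jp u) ∧
      InjOn h (Dk r R dg chi a a' b zJ Jp u) ∧
      h '' Dk r R dg chi a a' b zJ Jp u = Metric.closedBall 0 1 ∧ (∀ y ∈ Jp, h y = f y) ∧
      ∀ y ∈ Dk r R dg chi a a' b zJ Jp u, dist (h y) (f y) < ε := by
  obtain ⟨hL, hPC, hWN, hcel, hJS, hDk⟩ := hFAA P r R dg x₀ a a' b V0 V' C2 Jp zJ chi O1 hD u
    hu _ rfl
  have h0 : Subtype.val '' (Subtype.val ⁻¹' Jp : Set ↥(Sg r R chi a a' b u)) = Jp := by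
    rw [Subtype.image_preimage_coe, inter_eq_right.mpr hJS]
  have hcp := (hTWO _ _ _ hWN _ hcel.1).2.2.1
  obtain ⟨h', h1, h2, h3, h4, h5⟩ := hNHF _ _ _ hWN _
    (f ∘ (Subtype.val : ↥(Sg r R chi a a' b u) → P)) hcel hcp
    (by
      rw [← IsInducing.subtypeVal.continuousOn_image_iff, hDk]
      exact hfc)
    (by rw [image_comp, hDk, hf])
    (by
      intro v
      rw [← IsInducing.subtypeVal.isPreconnected_image, preimage_comp, image_inter_preimage, hDk]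
      exact hfib v)
    (fun x hx y hy h => Subtype.ext (hfi hx hy h))
    (by rw [image_comp, h0, hfJ]) ε hε
  obtain ⟨h, hh⟩ := extVal (Y := ℂ) _ h'
  have h6 : h ∘ (Subtype.val : ↥(Sg r R chi a a' b u) → P) = h' := funext hh
  refine ⟨h, ?_, ?_, ?_, ?_, ?_⟩
  · rw [← hDk, IsInducing.subtypeVal.continuousOn_image_iff, h6]
    exact h1
  · rw [← hDk]
    rintro _ ⟨x, hx, rfl⟩ _ ⟨y, hy, rfl⟩ h'
    rw [hh, hh] at h'
    rw [h2 hx hy h']
  · rw [← hDk, ← image_comp, h6, h3]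
  · intro y hy
    have h7 := hh ⟨y, hJS hy⟩
    have h8 := h4 ⟨y, hJS hy⟩ hy
    exact h7.trans h8
  · rw [← hDk]
    rintro _ ⟨x, hx, rfl⟩
    rw [hh]
    exact h5 x hx

end

theorem hFAD (hFAA : StFAA) (hFAB : StFAB) (hFAC : StFAC) (hNHF : StNHF) (hEXT : StEXT)
    (hCSS : StCSS) (hBF : StBF) (hMD2 : StMD2) (hMD3 : StMD3) (hTWO : StTWO) : StFAD := by
  intro P _ r R dg x₀ a a' b V0 V' C2 Jp zJ chi O1 hD
  have hc' : CSy MCell := ⟨hMD2.1, hMD2.2, fun ε hε E J h => hMD3 ε hε E J h⟩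
  have hne : Nonempty P := ⟨x₀⟩
  obtain ⟨-, -, hcpt, -, -, -⟩ := hFAB P r R dg x₀ a a' b V0 V' C2 Jp zJ chi O1 hD
  obtain ⟨hq1, hq2⟩ := hFAC P r R dg x₀ a a' b V0 V' C2 Jp zJ chi O1 hD
  obtain ⟨g, hgc, hgi, hg⟩ := base hFAA hCSS hBF hc' hD
  -- `Jp` is compact
  have hJc : IsCompact Jp := by
    obtain ⟨p, q, D₁, D₂, d₁, d₂, hs, -⟩ := hD.spl
    obtain ⟨⟨γ₁, -, e1⟩, ⟨γ₂, -, e2⟩, -, e3⟩ := hs
    rw [← e3, ← e1, ← e2]
    exact (isCompact_range γ₁.continuous).union (isCompact_range γ₂.continuous)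
  obtain ⟨j, -, -, hj3, hj4, hj5⟩ := invHomeo hJc hgc hgi hg
  -- charts
  have hch : ∀ u ∈ Icc (0 : ℝ) 1, ∃ (φ : P → ℂ) (θ : ℂ → P),
      (ContinuousOn φ (Dk r R dg chi a a' b zJ Jp u) ∧
        φ '' Dk r R dg chi a a' b zJ Jp u = Metric.closedBall 0 1 ∧ ∀ y ∈ Jp, φ y = g y) ∧
      ContinuousOn θ (Metric.closedBall 0 1) ∧ InjOn θ (Metric.closedBall 0 1) ∧
      θ '' Metric.closedBall 0 1 = Dk r R dg chi a a' b zJ Jp u ∧
      (∀ y ∈ Dk r R dg chi a a' b zJ Jp u, θ (φ y) = y) ∧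
      (∀ z ∈ Metric.closedBall (0 : ℂ) 1, φ (θ z) = z) ∧
      ∀ z ∈ Metric.sphere (0 : ℂ) 1, θ z = j z := by
    intro u hu
    obtain ⟨φ, h1, h2, h3, h4⟩ := chart hFAA hCSS hEXT hD u hu g hgc hgi hg
    obtain ⟨θ, t1, t2, t3, t4, t5⟩ := invHomeo (hcpt u hu).2 h1 h2 h3
    refine ⟨φ, θ, ⟨h1, h3, h4⟩, t1, t2, t3, t4, t5, ?_⟩
    intro z hz
    have hjz : j z ∈ Jp := by
      rw [← hj3]
      exact mem_image_of_mem j hz
    have h5 : φ (j z) = z := by rw [h4 _ hjz, hj5 z hz]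
    have h6 := t4 (j z) ((hcpt u hu).1 hjz)
    rw [h5] at h6
    exact h6
  -- the main step
  have hK : ∀ ε : ℝ, 0 < ε → ∃ δ : ℝ, 0 < δ ∧ ∀ u u' : ℝ, 0 ≤ u → u ≤ u' → u' ≤ 1 → u' - u < δ →
      ∃ h : P → P, ContinuousOn h (Dk r R dg chi a a' b zJ Jp u) ∧
        InjOn h (Dk r R dg chi a a' b zJ Jp u) ∧
        h '' Dk r R dg chi a a' b zJ Jp u = Dk r R dg chi a a' b zJ Jp u' ∧ (∀ y ∈ Jp, h y = y) ∧
        ∀ y ∈ Dk r R dg chi a a' b zJ Jp u, dist (h y) y < ε := by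
    intro ε hε
    obtain ⟨δ, hδ, hnear⟩ := hq2 (ε / 2) (by linarith)
    refine ⟨δ, hδ, ?_⟩
    intro u u' hu0 huu hu1 hlt
    have hu : u ∈ Icc (0 : ℝ) 1 := ⟨hu0, huu.trans hu1⟩
    have hu' : u' ∈ Icc (0 : ℝ) 1 := ⟨hu0.trans huu, hu1⟩
    obtain ⟨φ, θ, ⟨p1, p2, p3⟩, t1, t2, t3, t4, t5, t6⟩ := hch u' hu'
    obtain ⟨qc, qi, qf, qJ⟩ := hq1 u u' hu0 huu hu1
      (fun y => R (b - u' * chi (R a y) * (b - a')) y) (fun y => rfl)
    set q : P → P := fun y => R (b - u' * chi (R a y) * (b - a')) y with hqdef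
    have qJ' : ∀ y ∈ Jp, q y = y := qJ
    have qm : ∀ y ∈ Dk r R dg chi a a' b zJ Jp u, q y ∈ Dk r R dg chi a a' b zJ Jp u' := by
      intro y hy
      rw [← qi]
      exact mem_image_of_mem q hy
    have hfJ : ∀ y ∈ Jp, φ (q y) = g y := by
      intro y hy
      rw [qJ' y hy, p3 y hy]
    have hun : ∃ ε' : ℝ, 0 < ε' ∧ ∀ v ∈ Metric.closedBall (0 : ℂ) 1,
        ∀ w ∈ Metric.closedBall (0 : ℂ) 1, dist v w < ε' → dist (θ v) (θ w) < ε / 2 := by
      have h1 := (isCompact_closedBall (0 : ℂ) 1).uniformContinuousOn_of_continuous t1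
      rw [Metric.uniformContinuousOn_iff] at h1
      obtain ⟨ε', h2, h3⟩ := h1 (ε / 2) (by linarith)
      exact ⟨ε', h2, fun v hv w hw => h3 v hv w hw⟩
    obtain ⟨ε', hε', hθ⟩ := hun
    obtain ⟨h', a1, a2, a3, a4, a5⟩ := mono hFAA hNHF hTWO hD u hu (φ ∘ q)
      (p1.comp qc.continuousOn qm)
      (by rw [image_comp, qi, p2])
      (by
        intro v
        by_cases hv : v ∈ Metric.closedBall (0 : ℂ) 1
        · have h1 : Dk r R dg chi a a' b zJ Jp u ∩ (φ ∘ q) ⁻¹' {v}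
              = Dk r R dg chi a a' b zJ Jp u ∩ q ⁻¹' {θ v} := by
            ext y
            simp only [mem_inter_iff, mem_preimage, mem_singleton_iff, Function.comp_apply]
            constructor
            · rintro ⟨hy, h2⟩
              refine ⟨hy, ?_⟩
              rw [← h2, t4 _ (qm y hy)]
            · rintro ⟨hy, h2⟩
              refine ⟨hy, ?_⟩
              rw [h2, t5 v hv]
          rw [h1]
          exact qf (θ v)
        · have h1 : Dk r R dg chi a a' b zJ Jp u ∩ (φ ∘ q) ⁻¹' {v} = ∅ := by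
            rw [eq_empty_iff_forall_notMem]
            rintro y ⟨hy, h2⟩
            apply hv
            rw [← p2]
            have h3 : φ (q y) = v := h2
            rw [← h3]
            exact mem_image_of_mem φ (qm y hy)
          rw [h1]
          exact isPreconnected_empty)
      (by
        intro y hy y' hy' h
        have h1 : φ (q y) = φ (q y') := h
        rw [hfJ y hy, hfJ y' hy'] at h1
        exact hgi hy hy' h1)
      (by
        rw [← hg]
        exact image_congr fun y hy => hfJ y hy) ε' hε'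
    have hm' : ∀ y ∈ Dk r R dg chi a a' b zJ Jp u, h' y ∈ Metric.closedBall (0 : ℂ) 1 := by
      intro y hy
      rw [← a3]
      exact mem_image_of_mem h' hy
    have hmf : ∀ y ∈ Dk r R dg chi a a' b zJ Jp u, φ (q y) ∈ Metric.closedBall (0 : ℂ) 1 := by
      intro y hy
      rw [← p2]
      exact mem_image_of_mem φ (qm y hy)
    refine ⟨θ ∘ h', t1.comp a1 hm', ?_, ?_, ?_, ?_⟩
    · intro y hy y' hy' h
      exact a2 hy hy' (t2 (hm' y hy) (hm' y' hy') h)
    · rw [image_comp, a3, t3]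
    · intro y hy
      show θ (h' y) = y
      rw [a4 y hy]
      show θ (φ (q y)) = y
      rw [qJ' y hy]
      exact t4 y ((hcpt u' hu').1 hy)
    · intro y hy
      show dist (θ (h' y)) y < ε
      have h1 : dist (θ (h' y)) (θ (φ (q y))) < ε / 2 :=
        hθ _ (hm' y hy) _ (hmf y hy) (a5 y hy)
      have h2 : θ (φ (q y)) = q y := t4 _ (qm y hy)
      have h3 : dist (q y) y < ε / 2 := hnear u u' hu0 huu hu1 hlt y hy
      rw [h2] at h1
      linarith [dist_triangle (θ (h' y)) (q y) y]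
  refine ⟨j, hj3, ?_, ?_⟩
  · intro u hu
    obtain ⟨φ, θ, -, t1, t2, t3, -, -, t6⟩ := hch u hu
    exact ⟨θ, t1, t2, t3, t6⟩
  · intro u₀ hu₀ ε hε
    obtain ⟨δ, hδ, hh⟩ := hK ε hε
    refine ⟨δ, hδ, ?_⟩
    intro u hu hlt
    rw [abs_lt] at hlt
    rcases le_total u₀ u with hle | hle
    · exact hh u₀ u hu₀.1 hle hu.2 (by linarith)
    · obtain ⟨h₁, b1, b2, b3, b4, b5⟩ := hh u u₀ hu.1 hle hu₀.2 (by linarith)
      obtain ⟨h, c1, c2, c3, c4, c5⟩ := invHomeo (hcpt u hu).2 b1 b2 b3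
      refine ⟨h, c1, c2, c3, ?_, ?_⟩
      · intro y hy
        have h1 := c4 y ((hcpt u hu).1 hy)
        rw [b4 y hy] at h1
        exact h1
      · intro y hy
        have h1 : h y ∈ Dk r R dg chi a a' b zJ Jp u := by
          rw [← c3]
          exact mem_image_of_mem h hy
        have h2 := b5 (h y) h1
        rw [c5 y hy, dist_comm] at h2
        exact h2

end Pool.Agent.Helper72.SF
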