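import Pool.Agent.Helper58.SF.StN

/-!
Project SF (MP_a45945_gt, owner helper58), module IDN: following a subdivision of the target.
-/

set_option autoImplicit false

namespace Pool.Agent.Helper72.SF

open Set Topology Pool.Agent.Helper13.TR Pool.Agent.Helper58.SF
open Pool.Agent.Helper13.TW (IsArc Spl IsSCC dch Chn Splt GT CSy MP Val LR MCell StARB StARX StSCL StUAR StINF StLIN StAC1 StSDM StLRC StBF StMD1 StMD2 StMD3)

private lemma splSymm {S : Type} [TopologicalSpace S] {J : Set S} {p q : S} {D₁ D₂ : Set S}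
    (h : Spl J p q D₁ D₂) : Spl J p q D₂ D₁ :=
  ⟨h.2.1, h.1, by rw [inter_comm]; exact h.2.2.1, by rw [union_comm]; exact h.2.2.2⟩

private lemma spltSymm {X : Type} [TopologicalSpace X] {E J : Set X} {p q : X}
    {D₁ D₂ P E₁ E₂ : Set X} (h : Splt E J p q D₁ D₂ P E₁ E₂) : Splt E J p q D₂ D₁ P E₂ E₁ :=
  ⟨splSymm h.1, h.2.1, h.2.2.1, by rw [union_comm]; exact h.2.2.2.1,
    by rw [inter_comm]; exact h.2.2.2.2.1, h.2.2.2.2.2.2, h.2.2.2.2.2.1⟩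

/-- a common positive constant for finitely many marks -/
private lemma finMin {M : Set ℂ} (hM : M.Finite) {Q : ℂ → ℝ → Prop}
    (hmono : ∀ m : ℂ, ∀ a b : ℝ, 0 < a → a ≤ b → Q m b → Q m a)
    (hex : ∀ m ∈ M, ∃ η : ℝ, 0 < η ∧ Q m η) : ∃ η : ℝ, 0 < η ∧ ∀ m ∈ M, Q m η := by
  induction M, hM using Set.Finite.induction_on with
  | empty => exact ⟨1, one_pos, by simp⟩
  | @insert a s _ _ ih =>
    obtain ⟨η₁, h1, h1'⟩ := ih fun m hm => hex m (mem_insert_of_mem a hm)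
    obtain ⟨η₂, h2, h2'⟩ := hex a (mem_insert a s)
    refine ⟨min η₁ η₂, lt_min h1 h2, ?_⟩
    intro m hm
    rcases hm with hm | hm
    · rw [hm]
      exact hmono a _ _ (lt_min h1 h2) (min_le_right _ _) h2'
    · exact hmono m _ _ (lt_min h1 h2) (min_le_left _ _) (h1' m hm)

private theorem aux (hXCB : StXCB) (hMRK : StMRK) (hJS2 : StJS2) (hLRC : StLRC) (hTHE : StTHE)
    (S : Type) [MetricSpace S] [LocallyPathConnectedSpace S] [PathConnectedSpace S]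
    (ω : Ch S 1 → S → ℤ) (V : Set S) (hWN : WN S ω V) (J : Set S) (f : S → ℂ) (hJ : Cel ω V J)
    (hf : Mono (cl ω J) f) (hc : CSy fun E J => Cel ω V J ∧ E = cl ω J) (hc' : CSy MCell)
    (ε : ℝ) (E' J' : Set ℂ) (hgt : GT MCell ε E' J') :
    MCell E' J' → E' ⊆ Metric.closedBall 0 1 →
    ∃ M' : Set ℂ, M'.Finite ∧ M'.Nonempty ∧ M' ⊆ E' \ J' ∧ ∀ η₀ : ℝ, 0 < η₀ → ∃ η : ℝ, 0 < η ∧
    ∀ (K : Set S) (g : S → ℂ), Cel ω V K → cl ω K ⊆ cl ω J → ContinuousOn g K → InjOn g K →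
      g '' K = J' →
    (∀ y ∈ K, dist (g y) (f y) < η) → (∀ m' ∈ M', cl ω J ∩ f ⁻¹' {m'} ⊆ Ins ω K) →
    ∃ L : Set (MP S ℂ),
      LR (fun E J => Cel ω V J ∧ E = cl ω J) MCell ⟨cl ω K, K, E', J', g⟩ L ∧
      ∀ N ∈ L, Metric.diam N.E' < ε ∧ (∀ y ∈ N.J, dist (N.h y) (f y) < η₀) ∧
        ∃ m' ∈ N.E', cl ω J ∩ f ⁻¹' {m'} ⊆ N.E \ N.J := by
  induction hgt with
  | leaf E' J' hd =>
    intro hM hE
    obtain ⟨h, h1, h2⟩ := id hM
    have hm : h 0 ∈ E' \ J' := by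
      refine ⟨?_, ?_⟩
      · rw [← h1]
        exact mem_image_of_mem h (by simp)
      · rw [← h2]
        rintro ⟨z, hz, hz'⟩
        rw [h.injective hz'] at hz
        simp at hz
    refine ⟨{h 0}, finite_singleton _, singleton_nonempty _, by simpa using hm, ?_⟩
    intro η₀ hη₀
    refine ⟨η₀, hη₀, ?_⟩
    intro K g hK hKJ hgc hgi hgK hcl hmk
    refine ⟨{⟨cl ω K, K, E', J', g⟩}, ?_, ?_⟩
    · exact (hLRC S ℂ _ _ hc hc').2 _ ⟨⟨hK, rfl⟩, hM, hgc, hgi, hgK⟩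
    · intro N hN
      rw [mem_singleton_iff] at hN
      subst hN
      refine ⟨hd, hcl, h 0, hm.1, ?_⟩
      intro y hy
      have hy' := hmk (h 0) (by simp) hy
      exact ⟨Or.inr hy', hy'.1⟩
  | node E' J' p' q' D₁' D₂' P' E₁' E₂' hs hc1 hc2 _ _ ih1 ih2 =>
    intro hM hE
    have hE1 : E₁' ⊆ E' := by
      rw [← hs.2.2.2.1]
      exact subset_union_left
    have hE2 : E₂' ⊆ E' := by
      rw [← hs.2.2.2.1]
      exact subset_union_right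
    obtain ⟨M₁, hf1, hn1, hs1, hη1⟩ := ih1 hc1 (hE1.trans hE)
    obtain ⟨M₂, hf2, hn2, hs2, hη2⟩ := ih2 hc2 (hE2.trans hE)
    have hM1 : M₁ ⊆ E' \ J' := by
      intro m hm
      have h1 := hs1 hm
      refine ⟨hE1 h1.1, fun h2 => h1.2 (Or.inl ?_)⟩
      rw [← hs.2.2.2.2.2.1]
      exact ⟨h1.1, h2⟩
    have hM2 : M₂ ⊆ E' \ J' := by
      intro m hm
      have h1 := hs2 hm
      refine ⟨hE2 h1.1, fun h2 => h1.2 (Or.inl ?_)⟩
      rw [← hs.2.2.2.2.2.2]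
      exact ⟨h1.1, h2⟩
    refine ⟨M₁ ∪ M₂, hf1.union hf2, hn1.mono subset_union_left, union_subset hM1 hM2, ?_⟩
    intro η₀ hη₀
    obtain ⟨η₁, h1p, h1⟩ := hη1 η₀ hη₀
    obtain ⟨η₂, h2p, h2⟩ := hη2 η₀ hη₀
    -- marks
    obtain ⟨η₃, h3p, h3⟩ := finMin hf1
      (Q := fun m' η => ∀ (K : Set S) (g : S → ℂ) (p q : S) (D₁ D₂ P : Set S) (k : S → ℂ),
        Cel ω V K → cl ω K ⊆ cl ω J →
        Spl K p q D₁ D₂ → Crs ω K p q P → g p = p' → g q = q' → g '' D₁ = D₁' → g '' D₂ = D₂' →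
        InjOn g K → k '' P = P' →
        (∀ y ∈ K, dist (g y) (f y) < η) → (∀ y ∈ P, dist (k y) (f y) < η) →
        cl ω J ∩ f ⁻¹' {m'} ⊆ Ins ω K → cl ω J ∩ f ⁻¹' {m'} ⊆ Ins ω (D₁ ∪ P))
      (by
        intro m a b _ hab hb K g p q D₁ D₂ P k a1 a2 a3 a4 a5 a6 a7 a8 a9 a10 a11 a12 a13
        exact hb K g p q D₁ D₂ P k a1 a2 a3 a4 a5 a6 a7 a8 a9 a10
          (fun y hy => (a11 y hy).trans_le hab) (fun y hy => (a12 y hy).trans_le hab) a13)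
      (by
        intro m hm
        exact hMRK S ω V hWN J f hJ hf E' J' p' q' D₁' D₂' P' E₁' E₂' hM hc1 hE hs m (hs1 hm))
    obtain ⟨η₄, h4p, h4⟩ := finMin hf2
      (Q := fun m' η => ∀ (K : Set S) (g : S → ℂ) (p q : S) (D₂ D₁ P : Set S) (k : S → ℂ),
        Cel ω V K → cl ω K ⊆ cl ω J →
        Spl K p q D₂ D₁ → Crs ω K p q P → g p = p' → g q = q' → g '' D₂ = D₂' → g '' D₁ = D₁' →
        InjOn g K → k '' P = P' →
        (∀ y ∈ K, dist (g y) (f y) < η) → (∀ y ∈ P, dist (k y) (f y) < η) →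
        cl ω J ∩ f ⁻¹' {m'} ⊆ Ins ω K → cl ω J ∩ f ⁻¹' {m'} ⊆ Ins ω (D₂ ∪ P))
      (by
        intro m a b _ hab hb K g p q D₁ D₂ P k a1 a2 a3 a4 a5 a6 a7 a8 a9 a10 a11 a12 a13
        exact hb K g p q D₁ D₂ P k a1 a2 a3 a4 a5 a6 a7 a8 a9 a10
          (fun y hy => (a11 y hy).trans_le hab) (fun y hy => (a12 y hy).trans_le hab) a13)
      (by
        intro m hm
        exact hMRK S ω V hWN J f hJ hf E' J' p' q' D₂' D₁' P' E₂' E₁' hM hc2 hE (spltSymm hs) m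
          (hs2 hm))
    obtain ⟨m₀, hm₀⟩ := id hn1
    obtain ⟨η₅, h5p, h5⟩ := hXCB S ω V hWN J f hJ hf E' J' p' q' D₁' D₂' P' E₁' E₂' hM hE hs m₀
      (hM1 hm₀) (min (min η₁ η₂) (min η₃ η₄)) (lt_min (lt_min h1p h2p) (lt_min h3p h4p))
    refine ⟨min η₅ (min (min η₁ η₂) (min η₃ η₄)),
      lt_min h5p (lt_min (lt_min h1p h2p) (lt_min h3p h4p)), ?_⟩
    intro K g hK hKJ hgc hgi hgK hcl hmk
    have hcl5 : ∀ y ∈ K, dist (g y) (f y) < η₅ := fun y hy =>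
      (hcl y hy).trans_le (min_le_left _ _)
    have hclm : ∀ y ∈ K, dist (g y) (f y) < min (min η₁ η₂) (min η₃ η₄) := fun y hy =>
      (hcl y hy).trans_le (min_le_right _ _)
    have e1 : min (min η₁ η₂) (min η₃ η₄) ≤ η₁ := (min_le_left _ _).trans (min_le_left _ _)
    have e2 : min (min η₁ η₂) (min η₃ η₄) ≤ η₂ := (min_le_left _ _).trans (min_le_right _ _)
    have e3 : min (min η₁ η₂) (min η₃ η₄) ≤ η₃ := (min_le_right _ _).trans (min_le_left _ _)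
    have e4 : min (min η₁ η₂) (min η₃ η₄) ≤ η₄ := (min_le_right _ _).trans (min_le_right _ _)
    obtain ⟨p, q, D₁, D₂, P, k, hspl, hcrs, gp, gq, gD1, gD2, kc, ki, kP, kp, kq, kcl⟩ :=
      h5 K g hK hKJ hgc hgi hgK hcl5 (hmk m₀ (Or.inl hm₀))
    obtain ⟨t1, t2, t3, t4, t5, t6, t7, t8⟩ := hTHE S ω V hWN K hK p q D₁ D₂ P hspl hcrs
    have hsplt : Splt (cl ω K) K p q D₁ D₂ P (cl ω (D₁ ∪ P)) (cl ω (D₂ ∪ P)) :=
      ⟨hspl, hcrs.1, hcrs.2.1, t5, t6, t7, t8⟩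
    have hval : Val (fun E J => Cel ω V J ∧ E = cl ω J) MCell
        (⟨cl ω K, K, E', J', g⟩ : MP S ℂ) := ⟨⟨hK, rfl⟩, hM, hgc, hgi, hgK⟩
    obtain ⟨u, uP, uK, hLR⟩ := hJS2 S ℂ _ _ hc hc' ⟨cl ω K, K, E', J', g⟩ hval p q D₁ D₂ P
      (cl ω (D₁ ∪ P)) (cl ω (D₂ ∪ P)) p' q' D₁' D₂' P' E₁' E₂' k hsplt ⟨t1, rfl⟩ ⟨t2, rfl⟩ hs
      hc1 hc2 gp gq gD1 gD2 kc ki kP kp kq
    have hD1K : D₁ ⊆ K := by
      rw [← hspl.2.2.2]
      exact subset_union_left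
    have hD2K : D₂ ⊆ K := by
      rw [← hspl.2.2.2]
      exact subset_union_right
    have v1 := hLR.val ⟨cl ω (D₁ ∪ P), D₁ ∪ P, E₁', D₁' ∪ P', u⟩ (by simp)
    have v2 := hLR.val ⟨cl ω (D₂ ∪ P), D₂ ∪ P, E₂', D₂' ∪ P', u⟩ (by simp)
    have hcl1 : cl ω (D₁ ∪ P) ⊆ cl ω J := by
      refine Subset.trans ?_ hKJ
      rw [← t5]
      exact subset_union_left
    have hcl2 : cl ω (D₂ ∪ P) ⊆ cl ω J := by
      refine Subset.trans ?_ hKJ
      rw [← t5]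
      exact subset_union_right
    have d1 : ∀ y ∈ D₁ ∪ P, dist (u y) (f y) < η₁ := by
      rintro y (hy | hy)
      · rw [uK y (hD1K hy)]
        exact (hclm y (hD1K hy)).trans_le e1
      · rw [uP y hy]
        exact (kcl y hy).trans_le e1
    have d2 : ∀ y ∈ D₂ ∪ P, dist (u y) (f y) < η₂ := by
      rintro y (hy | hy)
      · rw [uK y (hD2K hy)]
        exact (hclm y (hD2K hy)).trans_le e2
      · rw [uP y hy]
        exact (kcl y hy).trans_le e2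
    have m1 : ∀ m' ∈ M₁, cl ω J ∩ f ⁻¹' {m'} ⊆ Ins ω (D₁ ∪ P) := by
      intro m' hm'
      exact h3 m' hm' K g p q D₁ D₂ P k hK hKJ hspl hcrs gp gq gD1 gD2 hgi kP
        (fun y hy => (hclm y hy).trans_le e3) (fun y hy => (kcl y hy).trans_le e3)
        (hmk m' (Or.inl hm'))
    have m2 : ∀ m' ∈ M₂, cl ω J ∩ f ⁻¹' {m'} ⊆ Ins ω (D₂ ∪ P) := by
      intro m' hm'
      exact h4 m' hm' K g p q D₂ D₁ P k hK hKJ (splSymm hspl) hcrs gp gq gD2 gD1 hgi kP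
        (fun y hy => (hclm y hy).trans_le e4) (fun y hy => (kcl y hy).trans_le e4)
        (hmk m' (Or.inr hm'))
    obtain ⟨L₁, hL1, hL1'⟩ := h1 (D₁ ∪ P) u t1 hcl1 v1.2.2.1 v1.2.2.2.1 v1.2.2.2.2 d1 m1
    obtain ⟨L₂, hL2, hL2'⟩ := h2 (D₂ ∪ P) u t2 hcl2 v2.2.2.1 v2.2.2.2.1 v2.2.2.2.2 d2 m2
    classical
    have hcomp := (hLRC S ℂ _ _ hc hc').1 ⟨cl ω K, K, E', J', g⟩ _
      (fun N => if N = ⟨cl ω (D₁ ∪ P), D₁ ∪ P, E₁', D₁' ∪ P', u⟩ then L₁ else L₂) hval hLR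
      (by
        intro N hN
        by_cases h : N = ⟨cl ω (D₁ ∪ P), D₁ ∪ P, E₁', D₁' ∪ P', u⟩
        · simp only [h, if_true]
          exact hL1
        · have h' : N = ⟨cl ω (D₂ ∪ P), D₂ ∪ P, E₂', D₂' ∪ P', u⟩ := by
            rcases hN with h' | h'
            · exact absurd h' h
            · exact h'
          simp only [h, if_false]
          rw [h']
          exact hL2)
    refine ⟨_, hcomp, ?_⟩
    intro N hN
    simp only [Set.mem_iUnion] at hN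
    obtain ⟨N', _, hN'⟩ := hN
    by_cases h : N' = ⟨cl ω (D₁ ∪ P), D₁ ∪ P, E₁', D₁' ∪ P', u⟩
    · rw [if_pos h] at hN'
      exact hL1' N hN'
    · rw [if_neg h] at hN'
      exact hL2' N hN'

theorem hIDN (hXCB : StXCB) (hMRK : StMRK) (hJS2 : StJS2) (hLRC : StLRC) (hTHE : StTHE)
    (hCSS : StCSS) (hMD2 : StMD2) (hMD3 : StMD3) : StIDN := by
  intro S _ _ _ ω V hWN J f hJ hf ε E' J' hgt hM hE
  have hc := hCSS S ω V hWN
  have hc' : CSy MCell := ⟨hMD2.1, hMD2.2, fun ε hε E J h => hMD3 ε hε E J h⟩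
  exact aux hXCB hMRK hJS2 hLRC hTHE S ω V hWN J f hJ hf hc hc' ε E' J' hgt hM hE

end Pool.Agent.Helper72.SF
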